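import Pool.Agent.H950.ON.St

/-!
O3: the path is the boundary of the left side, from the potentials (O1).
-/

set_option autoImplicit false

namespace Pool.Agent.H289.ON

open Pool.Agent.X136.ON Pool.Agent.H950.ON

variable {D : TD} {F : Finset Hx}

theorem mem_W {h : Hx} : h ∈ D.W ↔ h.1 ≤ D.w h.2 := Iff.rfl

theorem mem_Z {h : Hx} : h ∈ D.Z ↔ D.z h.2 ≤ h.1 := Iff.rfl

theorem W_not_Z {h : Hx} (hw : h ∈ D.W) : h ∉ D.Z := by
  intro hz
  have h1 := D.lt h.2
  rw [mem_W] at hw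
  rw [mem_Z] at hz
  omega

theorem W_pl {h : Hx} (hw : h ∈ D.W) : h ∈ D.pl F := Or.inl hw

theorem Z_npl (hF : F ⊆ D.ins) {h : Hx} (hz : h ∈ D.Z) : h ∉ D.pl F := by
  rintro (h1 | h1)
  · exact W_not_Z h1 hz
  · exact (D.mem_ins.1 (hF (Finset.mem_coe.1 h1))).2 hz

theorem W_C {h : Hx} (hw : h ∈ D.W) : h ∈ D.C F := ⟨h, hw, Relation.ReflTransGen.refl⟩

theorem Z_N {h : Hx} (hz : h ∈ D.Z) : h ∈ D.N F := ⟨h, hz, Relation.ReflTransGen.refl⟩

theorem C_pl {h : Hx} (hc : h ∈ D.C F) : h ∈ D.pl F := by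
  obtain ⟨u, hu, hc⟩ := hc
  rcases Relation.ReflTransGen.cases_tail hc with h1 | ⟨w, -, -, -, h1⟩
  · rw [h1]; exact W_pl hu
  · exact h1

theorem N_npl (hF : F ⊆ D.ins) {h : Hx} (hc : h ∈ D.N F) : h ∉ D.pl F := by
  obtain ⟨u, hu, hc⟩ := hc
  rcases Relation.ReflTransGen.cases_tail hc with h1 | ⟨w, -, -, -, h1⟩
  · rw [h1]; exact Z_npl hF hu
  · exact h1

theorem C_not_N (hF : F ⊆ D.ins) {h : Hx} (hc : h ∈ D.C F) : h ∉ D.N F :=
  fun hn => N_npl hF hn (C_pl hc)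

theorem nbr_symm {f g : Hx} (h : Nbr f g) : Nbr g f := by
  obtain ⟨e, h⟩ := h
  exact ⟨e, h.symm⟩

theorem C_step {s t : Hx} (hs : s ∈ D.C F) (hn : Nbr s t) (ht : t ∈ D.pl F) : t ∈ D.C F := by
  have h1 := C_pl hs
  obtain ⟨u, hu, hc⟩ := hs
  exact ⟨u, hu, hc.tail ⟨hn, h1, ht⟩⟩

theorem N_step (hF : F ⊆ D.ins) {s t : Hx} (hs : s ∈ D.N F) (hn : Nbr s t) (ht : t ∉ D.pl F) :
    t ∈ D.N F := by
  have h1 := N_npl hF hs
  obtain ⟨u, hu, hc⟩ := hs
  exact ⟨u, hu, hc.tail ⟨hn, h1, ht⟩⟩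

/-- The edges between `C` and `N`. -/
def II (D : TD) (F : Finset Hx) : Set Ed :=
  {e | (s1 e ∈ D.C F ∧ s2 e ∈ D.N F) ∨ (s1 e ∈ D.N F ∧ s2 e ∈ D.C F)}

/-- The walls of a set. -/
def Wa (S : Set Hx) : Set Ed := {e | ¬ (s1 e ∈ S ↔ s2 e ∈ S)}

theorem II_wall (hF : F ⊆ D.ins) {e : Ed} (he : e ∈ II D F) : e ∈ Wa (D.pl F) := by
  rcases he with ⟨h1, h2⟩ | ⟨h1, h2⟩
  · exact fun h => N_npl hF h2 (h.1 (C_pl h1))
  · exact fun h => N_npl hF h1 (h.2 (C_pl h2))

/-! ### vertices -/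

theorem nbr_hv {v : Vx} {f g : Hx} (hf : f ∈ hv v) (hg : g ∈ hv v) : f = g ∨ Nbr f g := by
  obtain ⟨i, j, s⟩ := v
  cases s
  · simp only [hv, Finset.mem_insert, Finset.mem_singleton] at hf hg
    have hA : Nbr (i, j) (i + 1, j) := ⟨(i, j, .A), Or.inl ⟨rfl, rfl⟩⟩
    have hB : Nbr (i, j) (i, j + 1) := ⟨(i, j, .B), Or.inl ⟨rfl, rfl⟩⟩
    have hC : Nbr (i + 1, j) (i, j + 1) := ⟨(i, j, .C), Or.inl ⟨rfl, rfl⟩⟩
    rcases hf with rfl | rfl | rfl <;> rcases hg with rfl | rfl | rfl <;>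
      first
        | exact Or.inl rfl
        | exact Or.inr hA
        | exact Or.inr hB
        | exact Or.inr hC
        | exact Or.inr (nbr_symm hA)
        | exact Or.inr (nbr_symm hB)
        | exact Or.inr (nbr_symm hC)
  · simp only [hv, Finset.mem_insert, Finset.mem_singleton] at hf hg
    have hA : Nbr (i, j + 1) (i + 1, j + 1) := ⟨(i, j + 1, .A), Or.inl ⟨rfl, rfl⟩⟩
    have hB : Nbr (i + 1, j) (i + 1, j + 1) := ⟨(i + 1, j, .B), Or.inl ⟨rfl, rfl⟩⟩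
    have hC : Nbr (i + 1, j) (i, j + 1) := ⟨(i, j, .C), Or.inl ⟨rfl, rfl⟩⟩
    rcases hf with rfl | rfl | rfl <;> rcases hg with rfl | rfl | rfl <;>
      first
        | exact Or.inl rfl
        | exact Or.inr hA
        | exact Or.inr hB
        | exact Or.inr hC
        | exact Or.inr (nbr_symm hA)
        | exact Or.inr (nbr_symm hB)
        | exact Or.inr (nbr_symm hC)

theorem at_vertex (hF : F ⊆ D.ins) {v : Vx} {e : Ed} (he : e ∈ II D F) (hi : Inc v e) {h : Hx}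
    (hh : h ∈ hv v) : h ∈ D.C F ∨ h ∈ D.N F := by
  obtain ⟨h1, h2⟩ := hv_of_inc hi
  have key : ∀ s t : Hx, s ∈ hv v → t ∈ hv v → s ∈ D.C F → t ∈ D.N F →
      h ∈ D.C F ∨ h ∈ D.N F := by
    intro s t hs ht hsC htN
    by_cases hp : h ∈ D.pl F
    · left
      rcases nbr_hv hs hh with rfl | hn
      · exact hsC
      · exact C_step hsC hn hp
    · right
      rcases nbr_hv ht hh with rfl | hn
      · exact htN
      · exact N_step hF htN hn hp
  rcases he with ⟨h3, h4⟩ | ⟨h3, h4⟩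
  · exact key _ _ h1 h2 h3 h4
  · exact key _ _ h2 h1 h4 h3

open Classical in
theorem ncard_eq (J : Set Ed) (v : Vx) : {e | e ∈ J ∧ Inc v e}.ncard =
    (if ea v ∈ J then 1 else 0) + (if eb v ∈ J then 1 else 0) + (if ec v ∈ J then 1 else 0) := by
  have h1 : {e | e ∈ J ∧ Inc v e} =
      ↑(({ea v, eb v, ec v} : Finset Ed).filter fun e => e ∈ J) := by
    ext e
    rw [Finset.mem_coe, Finset.mem_filter]
    simp only [Set.mem_setOf_eq, inc_iff, Finset.mem_insert, Finset.mem_singleton]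
    tauto
  rw [h1, Set.ncard_coe_finset, Finset.card_filter, Finset.sum_insert, Finset.sum_insert,
    Finset.sum_singleton, Nat.add_assoc]
  · rw [Finset.mem_singleton]; exact eb_ne_ec v
  · rw [Finset.mem_insert, Finset.mem_singleton, not_or]; exact ⟨ea_ne_eb v, ea_ne_ec v⟩

theorem walls_even (S : Set Hx) (v : Vx) : Even {e | e ∈ Wa S ∧ Inc v e}.ncard := by
  rw [ncard_eq]
  obtain ⟨i, j, s⟩ := v
  cases s
  · simp only [Wa, ea, eb, ec, s1, s2, Set.mem_setOf_eq]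
    by_cases h1 : ((i, j) : Hx) ∈ S <;> by_cases h2 : ((i + 1, j) : Hx) ∈ S <;>
      by_cases h3 : ((i, j + 1) : Hx) ∈ S <;> simp [h1, h2, h3]
  · simp only [Wa, ea, eb, ec, s1, s2, Set.mem_setOf_eq]
    by_cases h1 : ((i + 1, j) : Hx) ∈ S <;> by_cases h2 : ((i, j + 1) : Hx) ∈ S <;>
      by_cases h3 : ((i + 1, j + 1) : Hx) ∈ S <;> simp [h1, h2, h3]

theorem II_even (hF : F ⊆ D.ins) (v : Vx) : Even {e | e ∈ II D F ∧ Inc v e}.ncard := by
  by_cases hex : ∃ e, e ∈ II D F ∧ Inc v e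
  · obtain ⟨e0, he0, hi0⟩ := hex
    have h1 : {e | e ∈ II D F ∧ Inc v e} = {e | e ∈ Wa (D.C F) ∧ Inc v e} := by
      ext e
      simp only [Set.mem_setOf_eq]
      refine and_congr_left fun hi => ?_
      obtain ⟨h2, h3⟩ := hv_of_inc hi
      have h4 := at_vertex hF he0 hi0 h2
      have h5 := at_vertex hF he0 hi0 h3
      have h6 : s1 e ∈ D.C F → s1 e ∉ D.N F := C_not_N hF
      have h7 : s2 e ∈ D.C F → s2 e ∉ D.N F := C_not_N hF
      unfold II Wa
      simp only [Set.mem_setOf_eq]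
      tauto
    rw [h1]
    exact walls_even _ _
  · have h1 : {e | e ∈ II D F ∧ Inc v e} = ∅ := by
      ext e
      simp only [Set.mem_setOf_eq, Set.mem_empty_iff_false, iff_false]
      exact fun h => hex ⟨e, h⟩
    rw [h1, Set.ncard_empty]
    exact Even.zero

/-! ### the rows at the ends -/

theorem row_pl (hF : F ⊆ D.ins) {h : Hx} (hr : h.2 ≤ D.lo ∨ D.hi ≤ h.2) :
    h ∈ D.pl F ↔ h.1 ≤ D.w h.2 := by
  constructor
  · rintro (h1 | h1)
    · exact h1
    · exfalso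
      obtain ⟨h2, h3⟩ := D.mem_ins.1 (hF (Finset.mem_coe.1 h1))
      rw [mem_W] at h2
      rw [mem_Z] at h3
      rcases hr with h4 | h4
      · have := D.bot _ h4
        omega
      · have := D.top _ h4
        omega
  · exact fun h1 => Or.inl h1

theorem mem_om {e : Ed} : e ∈ D.om F ↔ e ∈ D.E ∧ e ∈ Wa (D.pl F) := by
  classical
  unfold TD.om Wa
  rw [Finset.mem_filter]
  rfl

theorem wall_E (hF : F ⊆ D.ins) {e : Ed} (he : e ∈ Wa (D.pl F)) :
    e ∈ D.E ↔ (D.lo ≤ (s1 e).2 ∧ (s1 e).2 ≤ D.hi) ∧ (D.lo ≤ (s2 e).2 ∧ (s2 e).2 ≤ D.hi) := by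
  rw [TD.mem_E]
  unfold TD.ES
  simp only [Set.mem_setOf_eq]
  constructor
  · rintro ⟨h1, h2, -⟩
    exact ⟨h1, h2⟩
  · rintro ⟨h1, h2⟩
    refine ⟨h1, h2, ?_, ?_⟩
    · rintro ⟨h3, h4⟩
      exact he ⟨fun _ => W_pl h4, fun _ => W_pl h3⟩
    · rintro ⟨h3, h4⟩
      exact he ⟨fun h => absurd h (Z_npl hF h3), fun h => absurd h (Z_npl hF h4)⟩

theorem ends (hF : F ⊆ D.ins) {v : Vx} {e e' : Ed} (he : e ∈ Wa (D.pl F))
    (he' : e' ∈ Wa (D.pl F)) (hi : Inc v e) (hi' : Inc v e') (hE : e ∈ D.E) (hE' : e' ∉ D.E) :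
    v = D.a ∨ v = D.b := by
  rw [wall_E hF he] at hE
  rw [wall_E hF he'] at hE'
  rw [inc_iff] at hi hi'
  obtain ⟨i, j, s⟩ := v
  unfold TD.a TD.b
  cases s
  · left
    rcases hi with rfl | rfl | rfl
    · have hj : j = D.hi := by
        rcases hi' with rfl | rfl | rfl <;> simp only [ea, eb, ec, s1, s2] at hE hE' <;> omega
      have h1 : ¬ (((i, j) : Hx) ∈ D.pl F ↔ ((i + 1, j) : Hx) ∈ D.pl F) := he
      rw [row_pl hF (h := (i, j)) (Or.inr hj.ge), row_pl hF (h := (i + 1, j)) (Or.inr hj.ge)] at h1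
      simp only at h1
      have : i = D.w j := by
        by_contra hc
        apply h1
        constructor <;> intro h2 <;> omega
      rw [this, hj]
    · exfalso
      rcases hi' with rfl | rfl | rfl <;> simp only [ea, eb, ec, s1, s2] at hE hE' <;> omega
    · exfalso
      rcases hi' with rfl | rfl | rfl <;> simp only [ea, eb, ec, s1, s2] at hE hE' <;> omega
  · right
    rcases hi with rfl | rfl | rfl
    · have hj : j + 1 = D.lo := by
        rcases hi' with rfl | rfl | rfl <;> simp only [ea, eb, ec, s1, s2] at hE hE' <;> omega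
      have h1 : ¬ (((i, j + 1) : Hx) ∈ D.pl F ↔ ((i + 1, j + 1) : Hx) ∈ D.pl F) := he
      rw [row_pl hF (h := (i, j + 1)) (Or.inl hj.le),
        row_pl hF (h := (i + 1, j + 1)) (Or.inl hj.le)] at h1
      simp only at h1
      have : i = D.w (j + 1) := by
        by_contra hc
        apply h1
        constructor <;> intro h2 <;> omega
      rw [this, hj]
      have : j = D.lo - 1 := by omega
      rw [this]
    · exfalso
      rcases hi' with rfl | rfl | rfl <;> simp only [ea, eb, ec, s1, s2] at hE hE' <;> omega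
    · exfalso
      rcases hi' with rfl | rfl | rfl <;> simp only [ea, eb, ec, s1, s2] at hE hE' <;> omega

/-! ### the configuration -/

/-- The edge at the upper marked point. -/
def eA (D : TD) : Ed := (D.w D.hi, D.hi, .A)

/-- The edge at the lower marked point. -/
def eB (D : TD) : Ed := (D.w D.lo, D.lo, .A)

theorem eA_mem : s1 (eA D) ∈ D.W ∧ s2 (eA D) ∈ D.Z := by
  refine ⟨le_refl (D.w D.hi), ?_⟩
  rw [mem_Z]
  exact (D.top D.hi le_rfl).le

theorem eB_mem : s1 (eB D) ∈ D.W ∧ s2 (eB D) ∈ D.Z := by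
  refine ⟨le_refl (D.w D.lo), ?_⟩
  rw [mem_Z]
  exact (D.bot D.lo le_rfl).le

theorem WZ_wall (hF : F ⊆ D.ins) {e : Ed} (h1 : s1 e ∈ D.W) (h2 : s2 e ∈ D.Z) :
    e ∈ Wa (D.pl F) := fun h => Z_npl hF h2 (h.1 (W_pl h1))

theorem eA_om (hF : F ⊆ D.ins) : eA D ∈ D.om F := by
  have h1 := WZ_wall hF (eA_mem (D := D)).1 (eA_mem (D := D)).2
  rw [mem_om, wall_E hF h1]
  have := D.lohi
  refine ⟨?_, h1⟩
  unfold eA
  simp only [s1, s2]
  omega

theorem eB_om (hF : F ⊆ D.ins) : eB D ∈ D.om F := by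
  have h1 := WZ_wall hF (eB_mem (D := D)).1 (eB_mem (D := D)).2
  rw [mem_om, wall_E hF h1]
  have := D.lohi
  refine ⟨?_, h1⟩
  unfold eB
  simp only [s1, s2]
  omega

theorem at_a (hF : F ⊆ D.ins) {e : Ed} : (e ∈ D.om F ∧ Inc D.a e) ↔ e = eA D := by
  constructor
  · rintro ⟨h1, h2⟩
    rw [mem_om] at h1
    obtain ⟨h3, h4⟩ := h1
    rw [wall_E hF h4] at h3
    rw [inc_iff] at h2
    rcases h2 with rfl | rfl | rfl
    · rfl
    · exfalso
      simp only [TD.a, eb, s1, s2] at h3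
      omega
    · exfalso
      simp only [TD.a, ec, s1, s2] at h3
      omega
  · rintro rfl
    exact ⟨eA_om hF, Or.inl rfl⟩

theorem at_b (hF : F ⊆ D.ins) {e : Ed} : (e ∈ D.om F ∧ Inc D.b e) ↔ e = eB D := by
  constructor
  · rintro ⟨h1, h2⟩
    rw [mem_om] at h1
    obtain ⟨h3, h4⟩ := h1
    rw [wall_E hF h4] at h3
    rw [inc_iff] at h2
    rcases h2 with rfl | rfl | rfl
    · simp [TD.b, ea, eB]
    · exfalso
      simp only [TD.b, eb, s1, s2] at h3
      omega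
    · exfalso
      simp only [TD.b, ec, s1, s2] at h3
      omega
  · rintro rfl
    exact ⟨eB_om hF, Or.inr rfl⟩

theorem deg_one_of {ω : Finset Ed} {v : Vx} {e0 : Ed} (h : ∀ e, (e ∈ ω ∧ Inc v e) ↔ e = e0) :
    deg ω v = 1 := by
  unfold deg
  rw [Finset.card_eq_one]
  refine ⟨e0, ?_⟩
  ext e
  rw [Finset.mem_filter, Finset.mem_singleton]
  exact h e

theorem deg_ncard (ω : Finset Ed) (v : Vx) : deg ω v = {e | e ∈ ω ∧ Inc v e}.ncard := by
  unfold deg
  rw [← Set.ncard_coe_finset]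
  congr 1
  ext e
  simp

theorem om_conf (hF : F ⊆ D.ins) : D.om F ∈ Conf D.E D.a D.b := by
  rw [mem_Conf]
  refine ⟨fun e he => (mem_om.1 he).1, deg_one_of fun e => at_a hF, deg_one_of fun e => at_b hF, ?_⟩
  intro v hva hvb
  have h3 : deg (D.om F) v ≤ 3 := by
    rw [deg_eq]
    have := Bool.toNat_le (ch (D.om F) (ea v))
    have := Bool.toNat_le (ch (D.om F) (eb v))
    have := Bool.toNat_le (ch (D.om F) (ec v))
    omega
  have hev : Even (deg (D.om F) v) := by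
    rw [deg_ncard]
    by_cases hex : ∃ e, e ∈ D.om F ∧ Inc v e
    · obtain ⟨e0, he0, hi0⟩ := hex
      rw [mem_om] at he0
      have h1 : {e | e ∈ D.om F ∧ Inc v e} = {e | e ∈ Wa (D.pl F) ∧ Inc v e} := by
        ext e
        simp only [Set.mem_setOf_eq]
        refine and_congr_left fun hi => ?_
        rw [mem_om]
        refine ⟨fun h => h.2, fun h => ⟨?_, h⟩⟩
        by_contra hc
        rcases ends hF he0.2 h hi0 hi he0.1 hc with h4 | h4
        · exact hva h4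
        · exact hvb h4
      rw [h1]
      exact walls_even _ _
    · have h1 : {e | e ∈ D.om F ∧ Inc v e} = ∅ := by
        ext e
        simp only [Set.mem_setOf_eq, Set.mem_empty_iff_false, iff_false]
        exact fun h => hex ⟨e, h⟩
      rw [h1, Set.ncard_empty]
      exact Even.zero
  obtain ⟨k, hk⟩ := hev
  omega

/-! ### constancy of the potentials -/

theorem row_const {S : Set Hx} {y a b : ℤ} (hab : a ≤ b)
    (h : ∀ x, a ≤ x → x < b → (((x, y) : Hx) ∈ S ↔ ((x + 1, y) : Hx) ∈ S)) :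
    (((a, y) : Hx) ∈ S ↔ ((b, y) : Hx) ∈ S) := by
  induction b, hab using Int.le_induction with
  | base => exact Iff.rfl
  | succ b hb ih =>
    rw [ih fun x h1 h2 => h x h1 (by omega)]
    exact h b hb (by omega)

theorem W_const {S : Set Hx} (h : ∀ e : Ed, s1 e ∈ D.W → s2 e ∈ D.W → (s1 e ∈ S ↔ s2 e ∈ S))
    {f g : Hx} (hf : f ∈ D.W) (hg : g ∈ D.W) : f ∈ S ↔ g ∈ S := by
  have hrow : ∀ x x' y : ℤ, x ≤ x' → ((x', y) : Hx) ∈ D.W →
      (((x, y) : Hx) ∈ S ↔ ((x', y) : Hx) ∈ S) := by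
    intro x x' y hx hW
    rw [mem_W] at hW
    simp only at hW
    refine row_const hx fun t h1 h2 => h (t, y, .A) ?_ ?_
    · show t ≤ D.w y
      omega
    · show t + 1 ≤ D.w y
      omega
  have key : ∀ (n : ℕ) (x x' y : ℤ), ((x, y) : Hx) ∈ D.W → ((x', y + n) : Hx) ∈ D.W →
      (((x, y) : Hx) ∈ S ↔ ((x', y + n) : Hx) ∈ S) := by
    intro n
    induction n with
    | zero =>
      intro x x' y h1 h2
      have e : y + ((0 : ℕ) : ℤ) = y := by simp
      rw [e] at h2 ⊢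
      rcases le_total x x' with h3 | h3
      · exact hrow x x' y h3 h2
      · exact (hrow x' x y h3 h1).symm
    | succ n ih =>
      intro x x' y h1 h2
      have e : y + ((n + 1 : ℕ) : ℤ) = y + n + 1 := by push_cast; ring
      rw [e] at h2 ⊢
      set t := min x' (D.w (y + n)) with ht
      have h3 : ((t, y + n) : Hx) ∈ D.W := by
        show t ≤ D.w (y + n)
        exact min_le_right _ _
      have h4 : ((t, y + n + 1) : Hx) ∈ D.W := by
        show t ≤ D.w (y + n + 1)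
        exact (min_le_left _ _).trans h2
      have h5 : ((t, y + n) : Hx) ∈ S ↔ ((t, y + n + 1) : Hx) ∈ S := h (t, y + n, .B) h3 h4
      rw [ih x t y h1 h3, h5]
      exact hrow t x' (y + n + 1) (min_le_left _ _) h2
  obtain ⟨x, y⟩ := f
  obtain ⟨x', y'⟩ := g
  rcases le_total y y' with h1 | h1
  · have e : y' = y + ((y' - y).toNat : ℤ) := by omega
    rw [e] at hg ⊢
    exact key _ x x' y hf hg
  · have e : y = y' + ((y - y').toNat : ℤ) := by omega
    rw [e] at hf ⊢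
    exact (key _ x' x y' hg hf).symm

theorem Z_const {S : Set Hx} (h : ∀ e : Ed, s1 e ∈ D.Z → s2 e ∈ D.Z → (s1 e ∈ S ↔ s2 e ∈ S))
    {f g : Hx} (hf : f ∈ D.Z) (hg : g ∈ D.Z) : f ∈ S ↔ g ∈ S := by
  have hrow : ∀ x x' y : ℤ, x ≤ x' → ((x, y) : Hx) ∈ D.Z →
      (((x, y) : Hx) ∈ S ↔ ((x', y) : Hx) ∈ S) := by
    intro x x' y hx hW
    rw [mem_Z] at hW
    simp only at hW
    refine row_const hx fun t h1 h2 => h (t, y, .A) ?_ ?_
    · show D.z y ≤ t
      omega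
    · show D.z y ≤ t + 1
      omega
  have key : ∀ (n : ℕ) (x x' y : ℤ), ((x, y) : Hx) ∈ D.Z → ((x', y + n) : Hx) ∈ D.Z →
      (((x, y) : Hx) ∈ S ↔ ((x', y + n) : Hx) ∈ S) := by
    intro n
    induction n with
    | zero =>
      intro x x' y h1 h2
      have e : y + ((0 : ℕ) : ℤ) = y := by simp
      rw [e] at h2 ⊢
      rcases le_total x x' with h3 | h3
      · exact hrow x x' y h3 h1
      · exact (hrow x' x y h3 h2).symm
    | succ n ih =>
      intro x x' y h1 h2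
      have e : y + ((n + 1 : ℕ) : ℤ) = y + n + 1 := by push_cast; ring
      rw [e] at h2 ⊢
      set t := max x' (D.z (y + n)) with ht
      have h3 : ((t, y + n) : Hx) ∈ D.Z := by
        show D.z (y + n) ≤ t
        exact le_max_right _ _
      have h4 : ((t, y + n + 1) : Hx) ∈ D.Z := by
        show D.z (y + n + 1) ≤ t
        exact h2.trans (le_max_left _ _)
      have h5 : ((t, y + n) : Hx) ∈ S ↔ ((t, y + n + 1) : Hx) ∈ S := h (t, y + n, .B) h3 h4
      rw [ih x t y h1 h3, h5]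
      exact (hrow x' t (y + n + 1) (le_max_left _ _) h2).symm
  obtain ⟨x, y⟩ := f
  obtain ⟨x', y'⟩ := g
  rcases le_total y y' with h1 | h1
  · have e : y' = y + ((y' - y).toNat : ℤ) := by omega
    rw [e] at hg ⊢
    exact key _ x x' y hf hg
  · have e : y = y' + ((y - y').toNat : ℤ) := by omega
    rw [e] at hf ⊢
    exact (key _ x' x y' hg hf).symm

/-- A potential is constant along a path which crosses no edge of `J`. -/
theorem con_const {S A : Set Hx} (h : ∀ e : Ed, s1 e ∈ A → s2 e ∈ A → (s1 e ∈ S ↔ s2 e ∈ S))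
    {f g : Hx} (hc : Con A f g) : f ∈ S ↔ g ∈ S := by
  induction hc with
  | refl => exact Iff.rfl
  | tail _ hs ih =>
    rw [ih]
    obtain ⟨⟨e, he⟩, h1, h2⟩ := hs
    rcases he with ⟨rfl, rfl⟩ | ⟨rfl, rfl⟩
    · exact h e h1 h2
    · exact (h e h2 h1).symm

/-- A path in `A` which starts in a set `B`, such that neighbours in `A` of points of `B` are in `B`,
stays in `B`. -/
theorem con_sub {A B : Set Hx} (h : ∀ u v, u ∈ B → Nbr u v → v ∈ A → v ∈ B) {f g : Hx}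
    (hf : f ∈ B) (hc : Con A f g) : Con B f g ∧ g ∈ B := by
  induction hc with
  | refl => exact ⟨Relation.ReflTransGen.refl, hf⟩
  | tail _ hs ih =>
    obtain ⟨h1, h2⟩ := ih
    have h3 := h _ _ h2 hs.1 hs.2.2
    exact ⟨h1.tail ⟨hs.1, h2, h3⟩, h3⟩

/-- Potentials of subsets of `II` are constant on `C`. -/
theorem C_const (hF : F ⊆ D.ins) {J : Set Ed} (hJ : J ⊆ II D F) {S : Set Hx}
    (hS : ∀ e, e ∈ J ↔ ¬ (s1 e ∈ S ↔ s2 e ∈ S)) {h : Hx} (hh : h ∈ D.C F) :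
    h ∈ S ↔ s1 (eA D) ∈ S := by
  have hC : ∀ e : Ed, s1 e ∈ D.C F → s2 e ∈ D.C F → (s1 e ∈ S ↔ s2 e ∈ S) := by
    intro e h1 h2
    by_contra hc
    rcases hJ ((hS e).2 hc) with ⟨-, h3⟩ | ⟨h3, -⟩
    · exact C_not_N hF h2 h3
    · exact C_not_N hF h1 h3
  obtain ⟨u, hu, hc⟩ := hh
  have h1 := (con_sub (B := D.C F) (fun u v h1 h2 h3 => C_step h1 h2 h3) (W_C hu) hc).1
  rw [← con_const hC h1]
  exact W_const (fun e h1 h2 => hC e (W_C h1) (W_C h2)) hu eA_mem.1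

/-- Potentials of subsets of `II` are constant on `N`. -/
theorem N_const (hF : F ⊆ D.ins) {J : Set Ed} (hJ : J ⊆ II D F) {S : Set Hx}
    (hS : ∀ e, e ∈ J ↔ ¬ (s1 e ∈ S ↔ s2 e ∈ S)) {h : Hx} (hh : h ∈ D.N F) :
    h ∈ S ↔ s2 (eA D) ∈ S := by
  have hC : ∀ e : Ed, s1 e ∈ D.N F → s2 e ∈ D.N F → (s1 e ∈ S ↔ s2 e ∈ S) := by
    intro e h1 h2
    by_contra hc
    rcases hJ ((hS e).2 hc) with ⟨h3, -⟩ | ⟨-, h3⟩
    · exact C_not_N hF h3 h1
    · exact C_not_N hF h3 h2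
  obtain ⟨u, hu, hc⟩ := hh
  have h1 := (con_sub (B := D.N F) (fun u v h1 h2 h3 => N_step hF h1 h2 h3) (Z_N hu) hc).1
  rw [← con_const hC h1]
  exact Z_const (fun e h1 h2 => hC e (Z_N h1) (Z_N h2)) hu eA_mem.2

/-! ### the sides -/

theorem C_R (hF : F ⊆ D.ins) {h : Hx} (hh : h ∈ D.C F) : h ∈ D.R F := by
  rintro ⟨u, hu, hc⟩
  rcases Relation.ReflTransGen.cases_tail hc with h1 | ⟨w, -, -, -, h1⟩
  · rw [h1] at hh
    exact C_not_N hF hh (Z_N hu)
  · exact h1 hh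

theorem N_R {h : Hx} (hh : h ∈ D.N F) : h ∉ D.R F := by
  intro h1
  apply h1
  obtain ⟨u, hu, hc⟩ := hh
  refine ⟨u, hu, ?_⟩
  clear h1
  induction hc with
  | refl => exact Relation.ReflTransGen.refl
  | tail _ hab ih =>
    exact ih.tail ⟨hab.1, fun h => hab.2.1 (C_pl h), fun h => hab.2.2 (C_pl h)⟩

theorem II_R (hF : F ⊆ D.ins) {e : Ed} (he : e ∈ II D F) : ¬ (s1 e ∈ D.R F ↔ s2 e ∈ D.R F) := by
  rcases he with ⟨h1, h2⟩ | ⟨h1, h2⟩
  · exact fun h => N_R h2 (h.1 (C_R hF h1))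
  · exact fun h => N_R h1 (h.2 (C_R hF h2))

theorem R_II (hp : S_pot) (hF : F ⊆ D.ins) {s t : Hx} (hst : Nbr s t) (hs : s ∈ D.R F)
    (ht : t ∉ D.R F) : s ∈ D.C F ∧ t ∈ D.N F := by
  obtain ⟨S, hS⟩ := hp (II D F) (II_even hF)
  have ht' : ∃ u ∈ D.Z, Con (D.C F)ᶜ u t := by
    by_contra hc
    exact ht hc
  obtain ⟨u, hu, hc⟩ := ht'
  have htC : t ∉ D.C F := by
    intro h1
    exact ht (C_R hF h1)
  have hsC : s ∈ D.C F := by
    by_contra h1
    exact hs ⟨u, hu, hc.tail ⟨nbr_symm hst, htC, h1⟩⟩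
  refine ⟨hsC, ?_⟩
  by_contra htN
  have h1 : u ∈ S ↔ t ∈ S := by
    refine con_const (A := (D.C F)ᶜ) (fun e h1 h2 => ?_) hc
    by_contra h3
    rcases (hS e).2 h3 with ⟨h4, -⟩ | ⟨-, h4⟩
    · exact h1 h4
    · exact h2 h4
  have h2 : s ∈ S ↔ t ∈ S := by
    obtain ⟨e, he⟩ := hst
    rcases he with ⟨h3, h4⟩ | ⟨h3, h4⟩
    · rw [← h3, ← h4]
      by_contra h5
      rcases (hS e).2 h5 with ⟨-, h6⟩ | ⟨-, h6⟩
      · rw [h4] at h6
        exact htN h6
      · rw [h4] at h6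
        exact htC h6
    · rw [← h3, ← h4]
      by_contra h5
      rcases (hS e).2 (fun h => h5 h.symm) with ⟨h6, -⟩ | ⟨h6, -⟩
      · rw [h3] at h6
        exact htC h6
      · rw [h3] at h6
        exact htN h6
  have h3 := C_const hF (le_refl _) hS hsC
  have h4 := N_const hF (le_refl _) hS (Z_N (F := F) hu)
  have h5 : eA D ∈ II D F := Or.inl ⟨W_C eA_mem.1, Z_N eA_mem.2⟩
  rw [hS] at h5
  tauto

theorem Gam_iff (hp : S_pot) (hF : F ⊆ D.ins) (e : Ed) : e ∈ D.Gam F ↔ e ∈ D.E ∧ e ∈ II D F := by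
  unfold TD.Gam
  simp only [Set.mem_setOf_eq]
  refine and_congr_right fun _ => ?_
  constructor
  · intro h
    by_cases h1 : s1 e ∈ D.R F
    · have h2 : s2 e ∉ D.R F := fun h2 => h ⟨fun _ => h2, fun _ => h1⟩
      exact Or.inl (R_II hp hF ⟨e, Or.inl ⟨rfl, rfl⟩⟩ h1 h2)
    · have h2 : s2 e ∈ D.R F := by
        by_contra h2
        exact h ⟨fun h3 => absurd h3 h1, fun h3 => absurd h3 h2⟩
      exact Or.inr (R_II hp hF ⟨e, Or.inr ⟨rfl, rfl⟩⟩ h2 h1).symm
  · exact II_R hF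

/-! ### the path -/

theorem joined_II (hF : F ⊆ D.ins) {v : Vx} (hj : Joined ↑(D.om F) D.a v) :
    ∀ e ∈ D.om F, Inc v e → e ∈ II D F := by
  induction hj with
  | refl =>
    intro e he hi
    have h1 := (at_a hF).1 ⟨he, hi⟩
    rw [h1]
    exact Or.inl ⟨W_C eA_mem.1, Z_N eA_mem.2⟩
  | @tail u w _ hs ih =>
    intro e he hi
    obtain ⟨e0, he0, hh⟩ := hs
    have hiu : Inc u e0 := by
      rcases hh with ⟨h, -⟩ | ⟨-, h⟩
      · exact Or.inl h
      · exact Or.inr h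
    have hiw : Inc w e0 := by
      rcases hh with ⟨-, h⟩ | ⟨h, -⟩
      · exact Or.inr h
      · exact Or.inl h
    have h0 := ih e0 (Finset.mem_coe.1 he0) hiu
    obtain ⟨h1, h2⟩ := hv_of_inc hi
    have h3 := at_vertex hF h0 hiw h1
    have h4 := at_vertex hF h0 hiw h2
    have h5 := (mem_om.1 he).2
    have c1 : s1 e ∈ D.C F → s1 e ∈ D.pl F := C_pl
    have c2 : s2 e ∈ D.C F → s2 e ∈ D.pl F := C_pl
    have n1 : s1 e ∈ D.N F → s1 e ∉ D.pl F := N_npl hF
    have n2 : s2 e ∈ D.N F → s2 e ∉ D.pl F := N_npl hF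
    unfold Wa at h5
    unfold II
    simp only [Set.mem_setOf_eq] at h5 ⊢
    tauto

theorem II_pth (hp : S_pot) (hF : F ⊆ D.ins) {e : Ed} (hE : e ∈ D.E) (he : e ∈ II D F) :
    e ∈ pth (D.om F) D.a := by
  set J : Set Ed := {e | (e ∈ D.E ∧ e ∈ II D F) ∧ e ∉ pth (D.om F) D.a} with hJ
  have hom : ∀ e, e ∈ D.E → e ∈ II D F → e ∈ D.om F := fun e h1 h2 =>
    mem_om.2 ⟨h1, II_wall hF h2⟩
  have hev : ∀ v, Even {e | e ∈ J ∧ Inc v e}.ncard := by
    intro v
    by_cases hj : Joined ↑(D.om F) D.a v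
    · have h1 : {e | e ∈ J ∧ Inc v e} = ∅ := by
        ext e
        simp only [Set.mem_setOf_eq, Set.mem_empty_iff_false, iff_false]
        rintro ⟨⟨⟨h1, h2⟩, h3⟩, hi⟩
        exact h3 (mem_pth_of (hom e h1 h2) hi hj)
      rw [h1, Set.ncard_empty]
      exact Even.zero
    · by_cases hex : ∃ e, e ∈ J ∧ Inc v e
      · obtain ⟨e0, ⟨⟨h0E, h0I⟩, h0p⟩, hi0⟩ := hex
        have h1 : {e | e ∈ J ∧ Inc v e} = {e | e ∈ II D F ∧ Inc v e} := by
          ext e
          simp only [Set.mem_setOf_eq]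
          refine and_congr_left fun hi => ?_
          constructor
          · rintro ⟨⟨-, h1⟩, -⟩
            exact h1
          · intro h1
            refine ⟨⟨?_, h1⟩, fun h2 => hj (joined_of_pth h2 hi)⟩
            by_contra hc
            rcases ends hF (II_wall hF h0I) (II_wall hF h1) hi0 hi h0E hc with h4 | h4
            · rw [h4] at hj
              exact hj Relation.ReflTransGen.refl
            · rw [h4] at hj
              exact hj (joined_ends (om_conf hF))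
        rw [h1]
        exact II_even hF v
      · have h1 : {e | e ∈ J ∧ Inc v e} = ∅ := by
          ext e
          simp only [Set.mem_setOf_eq, Set.mem_empty_iff_false, iff_false]
          exact fun h => hex ⟨e, h⟩
        rw [h1, Set.ncard_empty]
        exact Even.zero
  obtain ⟨S, hS⟩ := hp J hev
  have hsub : J ⊆ II D F := fun e he => he.1.2
  by_contra hcon
  have hmem : e ∈ J := ⟨⟨hE, he⟩, hcon⟩
  have h1 : eA D ∉ J := by
    intro h1
    exact h1.2 (mem_pth_of (eA_om hF) (v := D.a) (Or.inl rfl) Relation.ReflTransGen.refl)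
  rw [hS] at h1 hmem
  apply hmem
  rcases he with ⟨h2, h3⟩ | ⟨h2, h3⟩
  · have h4 := C_const hF hsub hS h2
    have h5 := N_const hF hsub hS h3
    tauto
  · have h4 := C_const hF hsub hS h3
    have h5 := N_const hF hsub hS h2
    tauto

theorem t_pth (h : Pool.Agent.H950.ON.S_pot) : Pool.Agent.H950.ON.S_pth := by
  intro D F hF
  have h2 := Gam_iff h hF
  refine ⟨fun e => ?_, fun e => h2 e⟩
  rw [h2]
  constructor
  · intro he
    have h3 := mem_pth.1 he
    exact ⟨(mem_om.1 h3.1).1, joined_II hF h3.2 e h3.1 (Or.inl rfl)⟩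
  · rintro ⟨h3, h4⟩
    exact II_pth h hF h3 h4

end Pool.Agent.H289.ON
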